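import Pool.Agent.N303.SJ.Stm

set_option autoImplicit false

/-!
# Project SJ, leaf PT: multiplication of a sparse sum by a polynomial of small degree

Each coefficient of `p * cp k g` in the orthonormal basis of spherical harmonics is nonzero only
for degrees in `[k - m, k + m]`, and the separation of the degrees makes these intervals disjoint.
-/

open MeasureTheory Metric Set
open scoped ENNReal RealInnerProductSpace NNReal

namespace Pool.Agent.N123.SJPT

open Pool.Agent.N303.SH Pool.Agent.N303.SJ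

variable {n : ℕ}

/-- coefficients of `p * cp k g` in the orthonormal basis -/
noncomputable def ac (p : C(S n, ℝ)) (g : S n → ℂ) (M k : ℕ) (q : Ix n M) : ℂ :=
  ∑ j, (ip (e n k j) (p * ee n M q) : ℂ) * ∫ y, (e n k j y : ℂ) * g y ∂(sg n)

lemma ac_zero {m : ℕ} {p : C(S n, ℝ)} (hp : p ∈ Pool.Agent.N303.SH.P n m) (g : S n → ℂ)
    (M k : ℕ) (q : Ix n M) (h : k + m < (q.1 : ℕ) ∨ (q.1 : ℕ) + m < k) : ac p g M k q = 0 := by
  unfold ac
  refine Finset.sum_eq_zero fun j _ => ?_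
  have h1 : pk k (p * ee n M q) = 0 := pk_mul_eq_zero hp (e_mem _ _) (Or.symm h)
  rw [← ip_e_pk, h1, ip_zero]
  simp

lemma ip_swap (p a b : C(S n, ℝ)) : ip a (p * b) = ip b (p * a) := by
  unfold ip
  congr 1
  ext y
  simp only [ContinuousMap.mul_apply]
  ring

lemma cp_exp {m : ℕ} {p : C(S n, ℝ)} (hp : p ∈ Pool.Agent.N303.SH.P n m) (g : S n → ℂ)
    {M k : ℕ} (hM : k + m ≤ M) (y : S n) :
    (p y : ℂ) * cp k g y = ∑ q : Ix n M, ac p g M k q * (ee n M q y : ℂ) := by
  have h1 : ∀ j, (p y : ℂ) * (e n k j y : ℂ) =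
      ∑ q : Ix n M, (ip (e n k j) (p * ee n M q) : ℂ) * (ee n M q y : ℂ) := by
    intro j
    have h2 := exp_P' (m := m + k) (M := M) (by omega) (P_mul hp (H_le k (e_mem k j)))
    have h3 := congrArg (fun f : C(S n, ℝ) => f y) h2
    simp only [ContinuousMap.mul_apply, ContinuousMap.sum_apply, pk, ContinuousMap.smul_apply,
      smul_eq_mul] at h3
    have h4 := sum_Ix (n := n) M (fun l i => ip (e n l i) (p * e n k j) * e n l i y)
    rw [← h4] at h3
    rw [← Complex.ofReal_mul, h3]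
    push_cast
    refine Finset.sum_congr rfl fun q _ => ?_
    rw [ip_swap p (e n k j) (ee n M q)]
    rfl
  unfold cp ac
  rw [Finset.mul_sum]
  simp only [Finset.sum_mul]
  rw [Finset.sum_comm]
  refine Finset.sum_congr rfl fun j _ => ?_
  rw [← mul_assoc, h1 j, Finset.sum_mul]
  refine Finset.sum_congr rfl fun q _ => ?_
  ring

lemma int_pg {m : ℕ} {p : C(S n, ℝ)} (hp : p ∈ Pool.Agent.N303.SH.P n m) {g : S n → ℂ}
    (hgi : Integrable g (sg n)) (M : ℕ) (q : Ix n M) :
    ∫ y, (ee n M q y : ℂ) * ((p y : ℂ) * g y) ∂(sg n) =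
      ∑ k ∈ Finset.range (m + M + 1), ac p g M k q := by
  have hF : p * ee n M q ∈ Pool.Agent.N303.SH.P n (m + M) := by
    have h1 := P_mul hp (H_le _ (e_mem (n := n) q.1 q.2))
    refine P_mono ?_ h1
    have := q.1.2
    omega
  have h2 := int_exp hgi (m + M) hF
  unfold ac
  rw [← h2]
  congr 1
  ext y
  rw [ContinuousMap.mul_apply]
  push_cast
  ring

lemma par {m : ℕ} {p : C(S n, ℝ)} (hp : p ∈ Pool.Agent.N303.SH.P n m) (g : S n → ℂ)
    {M : ℕ} (J : Finset ℕ) (hM : ∀ k ∈ J, k + m ≤ M) (γ : ℕ → ℂ) :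
    ∫ y, p y ^ 2 * ‖∑ k ∈ J, γ k * cp k g y‖ ^ 2 ∂(sg n) =
      ∑ q : Ix n M, ‖∑ k ∈ J, γ k * ac p g M k q‖ ^ 2 := by
  rw [← comb_sq M]
  congr 1
  ext y
  have h1 : ∑ q : Ix n M, (∑ k ∈ J, γ k * ac p g M k q) * (ee n M q y : ℂ) =
      (p y : ℂ) * ∑ k ∈ J, γ k * cp k g y := by
    simp only [Finset.sum_mul, Finset.mul_sum]
    rw [Finset.sum_comm]
    refine Finset.sum_congr rfl fun k hk => ?_
    have h2 := cp_exp hp g (hM k hk) y
    calc ∑ q : Ix n M, γ k * ac p g M k q * (ee n M q y : ℂ) =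
        γ k * ∑ q : Ix n M, ac p g M k q * (ee n M q y : ℂ) := by
          rw [Finset.mul_sum]
          exact Finset.sum_congr rfl fun q _ => by ring
      _ = _ := by rw [← h2]; ring
  rw [h1, norm_mul, mul_pow, Complex.norm_real, Real.norm_eq_abs, sq_abs]

lemma par1 {m : ℕ} {p : C(S n, ℝ)} (hp : p ∈ Pool.Agent.N303.SH.P n m) (g : S n → ℂ)
    {M k : ℕ} (hM : k + m ≤ M) :
    ∫ y, p y ^ 2 * ‖cp k g y‖ ^ 2 ∂(sg n) = ∑ q : Ix n M, ‖ac p g M k q‖ ^ 2 := by
  have h := par hp g {k} (M := M) (by intro l hl; rw [Finset.mem_singleton] at hl; omega)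
    (fun _ => 1)
  simpa using h

/-- at most one of the coefficients does not vanish -/
lemma single {K : Set ℕ} {J : Finset ℕ} {m : ℕ} (hS : Sepa K J m) {p : C(S n, ℝ)}
    (hp : p ∈ Pool.Agent.N303.SH.P n m) {g : S n → ℂ} (hg : Deg K g) (M : ℕ) (q : Ix n M) :
    (∀ k ∈ J, ac p g M k q = 0) ∨
      ∃ k ∈ J, (k ≤ (q.1 : ℕ) + m) ∧ ∀ l, l ≠ k → ac p g M l q = 0 := by
  by_cases h : ∀ k ∈ J, ac p g M k q = 0
  · exact Or.inl h
  · right
    push Not at h
    obtain ⟨k, hk, hne⟩ := h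
    have h1 : ¬ (k + m < (q.1 : ℕ) ∨ (q.1 : ℕ) + m < k) := fun h => hne (ac_zero hp g M k q h)
    refine ⟨k, hk, by omega, fun l hl => ?_⟩
    by_cases hlK : l ∈ K
    · apply ac_zero hp
      rcases hS.2 l hlK k hk hl with h2 | h2 <;> omega
    · unfold ac
      exact Finset.sum_eq_zero fun i _ => by rw [hg l hlK i, mul_zero]

theorem t_pt : Pool.Agent.N303.SJ.S_PT := by
  intro c K J m hS g hg2 hg p hp
  have hgi : Integrable g (sg (c + 2)) := hg2.integrable (by norm_num)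
  set M : ℕ := m + J.sup id with hMdef
  have hM : ∀ k ∈ J, k + m ≤ M := by
    intro k hk
    have : k ≤ J.sup id := Finset.le_sup (f := id) hk
    omega
  have hpar1 : ∀ k ∈ J, ∫ y, p y ^ 2 * ‖cp k g y‖ ^ 2 ∂(sg (c + 2)) =
      ∑ q : Ix (c + 2) M, ‖ac p g M k q‖ ^ 2 := fun k hk => par1 hp g (hM k hk)
  constructor
  · have hm : MemLp (fun y => (p y : ℂ) * g y) 2 (sg (c + 2)) := by
      have hf : AEStronglyMeasurable (fun y => (p y : ℂ)) (sg (c + 2)) :=
        (Complex.continuous_ofReal.comp p.continuous).aestronglyMeasurable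
      refine MemLp.of_le_mul (c := ‖p‖) hg2 (hf.mul hg2.1) (Filter.Eventually.of_forall fun y => ?_)
      rw [norm_mul, Complex.norm_real]
      exact mul_le_mul_of_nonneg_right (p.norm_coe_le_norm y) (norm_nonneg _)
    have hb := bessel M hm
    have e1 : ∫ y, ‖(p y : ℂ) * g y‖ ^ 2 ∂(sg (c + 2)) = ∫ y, p y ^ 2 * ‖g y‖ ^ 2 ∂(sg (c + 2)) := by
      congr 1
      ext y
      rw [norm_mul, mul_pow, Complex.norm_real, Real.norm_eq_abs, sq_abs]
    rw [e1] at hb
    refine le_trans ?_ hb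
    rw [Finset.sum_congr rfl hpar1, Finset.sum_comm]
    refine Finset.sum_le_sum fun q _ => ?_
    rw [int_pg hp hgi M q]
    rcases single hS hp hg M q with h | ⟨k, hk, hkq, h⟩
    · rw [Finset.sum_eq_zero fun k hk => by rw [h k hk]; simp]
      positivity
    · have hk' : k ∈ Finset.range (m + M + 1) := by
        rw [Finset.mem_range]
        have := hM k hk
        omega
      rw [Finset.sum_eq_single k (fun l _ hl => by rw [h l hl]; simp) (fun h0 => absurd hk h0),
        Finset.sum_eq_single k (fun l _ hl => h l hl) (fun h0 => absurd hk' h0)]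
  · intro r _
    have e1 : ∀ w : S (c + 2), ft (blk J g) (r • (w : E (c + 2))) =
        ∑ k ∈ J, Ic c k r * cp k g w := by
      intro w
      rw [ft_blk]
      exact Finset.sum_congr rfl fun k _ => ft_cp k g r w
    simp only [e1]
    have e2 : ∑ k ∈ J, ‖Ic c k r‖ ^ 2 * ∫ y, p y ^ 2 * ‖cp k g y‖ ^ 2 ∂(sg (c + 2)) =
        ∑ k ∈ J, ‖Ic c k r‖ ^ 2 * ∑ q : Ix (c + 2) M, ‖ac p g M k q‖ ^ 2 :=
      Finset.sum_congr rfl fun k hk => by rw [hpar1 k hk]
    rw [par hp g J hM (fun k => Ic c k r), e2]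
    simp only [Finset.mul_sum]
    rw [Finset.sum_comm]
    refine Finset.sum_congr rfl fun q _ => ?_
    rcases single hS hp hg M q with h | ⟨k, hk, hkq, h⟩
    · rw [Finset.sum_eq_zero fun k hk => by rw [h k hk, mul_zero],
        Finset.sum_eq_zero fun k hk => by rw [h k hk]; simp]
      simp
    · rw [Finset.sum_eq_single k (fun l _ hl => by rw [h l hl, mul_zero]) (fun h0 => absurd hk h0),
        Finset.sum_eq_single k (fun l _ hl => by rw [h l hl]; simp) (fun h0 => absurd hk h0),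
        norm_mul, mul_pow]

end Pool.Agent.N123.SJPT
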